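import Mathlib
import Pool.Agent.H715R2.Uncountable
import Pool.Agent.H905R2.OppD

set_option autoImplicit false

/-! # Systems of forms with a common invariant matrix -/

open Matrix Polynomial

namespace Pool.Agent.H812R2.Opp

theorem eig {n : ℕ} (B : Matrix (Fin n) (Fin n) ℝ) (v : Fin n → ℝ) (hv : v ≠ 0)
    (h : ∀ x : Fin n → ℝ, ∑ j, v j * x j = 0 → ∑ j, v j * (B.mulVec x) j = 0) :
    ∃ l : ℝ, ∀ x : Fin n → ℝ, ∑ j, v j * (B.mulVec x) j = l * ∑ j, v j * x j := by
  obtain ⟨j0, hj0⟩ := Function.ne_iff.1 hv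
  rw [Pi.zero_apply] at hj0
  refine ⟨(∑ j, v j * (B.mulVec (Pi.single j0 1)) j) / v j0, fun x => ?_⟩
  set t : ℝ := (∑ j, v j * x j) / v j0 with ht
  have h1 : ∑ j, v j * (x - t • (Pi.single j0 (1 : ℝ) : Fin n → ℝ)) j = 0 := by
    have e1 : ∀ j, v j * (x - t • (Pi.single j0 (1 : ℝ) : Fin n → ℝ)) j =
        v j * x j - t * (v j * (Pi.single j0 (1 : ℝ) : Fin n → ℝ) j) := by
      intro j
      rw [Pi.sub_apply, Pi.smul_apply, smul_eq_mul]
      ring
    simp only [e1]
    rw [Finset.sum_sub_distrib, ← Finset.mul_sum]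
    have e2 : ∑ j, v j * (Pi.single j0 (1 : ℝ) : Fin n → ℝ) j = v j0 := by
      rw [Finset.sum_eq_single j0]
      · rw [Pi.single_eq_same, mul_one]
      · intro j _ hj
        rw [Pi.single_eq_of_ne hj, mul_zero]
      · intro h; exact absurd (Finset.mem_univ _) h
    rw [e2, ht, div_mul_cancel₀ _ hj0, sub_self]
  have h2 := h _ h1
  rw [Matrix.mulVec_sub, Matrix.mulVec_smul] at h2
  have e3 : ∀ j, v j * (B.mulVec x - t • B.mulVec (Pi.single j0 1)) j =
      v j * (B.mulVec x) j - t * (v j * (B.mulVec (Pi.single j0 1)) j) := by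
    intro j
    rw [Pi.sub_apply, Pi.smul_apply, smul_eq_mul]
    ring
  simp only [e3] at h2
  rw [Finset.sum_sub_distrib, ← Finset.mul_sum, sub_eq_zero] at h2
  rw [h2, ht]
  ring

theorem eig_mat {n : ℕ} (B : Matrix (Fin n) (Fin n) ℝ) (L : Fin n → Fin n → ℝ)
    (hL : LinearIndependent ℝ L)
    (h : ∀ i, ∀ x : Fin n → ℝ, ∑ j, L i j * x j = 0 → ∑ j, L i j * (B.mulVec x) j = 0) :
    ∃ l : Fin n → ℝ, Matrix.of L * B = Matrix.diagonal l * Matrix.of L := by
  have h1 : ∀ i, ∃ l : ℝ, ∀ x : Fin n → ℝ, ∑ j, L i j * (B.mulVec x) j = l * ∑ j, L i j * x j :=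
    fun i => eig B (L i) (hL.ne_zero i) (h i)
  choose l hl using h1
  refine ⟨l, ?_⟩
  have h2 : ∀ x : Fin n → ℝ, (Matrix.of L * B).mulVec x = (Matrix.diagonal l * Matrix.of L).mulVec x := by
    intro x
    funext i
    rw [← Matrix.mulVec_mulVec, ← Matrix.mulVec_mulVec, Matrix.mulVec_diagonal]
    exact hl i x
  exact Matrix.ext_of_mulVec_single fun j => h2 _

theorem inj_of {n : ℕ} (A : Matrix (Fin n) (Fin n) ℤ)
    (hirr : Irreducible (A.charpoly.map (Int.castRingHom ℚ)))
    (G : Matrix (Fin n) (Fin n) ℝ) (hG : G.det ≠ 0) (l : Fin n → ℝ)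
    (h : G * A.map (Int.cast : ℤ → ℝ) = Matrix.diagonal l * G) : Function.Injective l := by
  have hu : IsUnit G := (Matrix.isUnit_iff_isUnit_det _).2 (isUnit_iff_ne_zero.2 hG)
  obtain ⟨u, hu⟩ := hu
  have h1 : A.map (Int.cast : ℤ → ℝ) = u.val⁻¹ * Matrix.diagonal l * u.val := by
    rw [hu, Matrix.mul_assoc, ← h, ← Matrix.mul_assoc,
      Matrix.nonsing_inv_mul _ (isUnit_iff_ne_zero.2 hG), Matrix.one_mul]
  have h2 : (A.map (Int.cast : ℤ → ℝ)).charpoly = ∏ i, (X - C (l i)) := by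
    rw [h1, Matrix.charpoly_units_conj', Matrix.charpoly_diagonal]
  have h3 : (A.map (Int.cast : ℤ → ℝ)).charpoly =
      (A.charpoly.map (Int.castRingHom ℚ)).map (algebraMap ℚ ℝ) := by
    rw [Polynomial.map_map]
    have e : (algebraMap ℚ ℝ).comp (Int.castRingHom ℚ) = Int.castRingHom ℝ := RingHom.ext_int _ _
    rw [e, ← Matrix.charpoly_map]
    rfl
  have h4 : (A.map (Int.cast : ℤ → ℝ)).charpoly.Separable := by
    rw [h3]
    exact hirr.separable.map
  rw [h2] at h4
  exact separable_prod_X_sub_C_iff.1 h4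

/-- Two systems of forms whose hyperplanes are invariant under the same integer matrix with
irreducible characteristic polynomial have proportional products. -/
theorem prop_of_common {n : ℕ} (A : Matrix (Fin n) (Fin n) ℤ)
    (hirr : Irreducible (A.charpoly.map (Int.castRingHom ℚ)))
    (L E : Fin n → Fin n → ℝ) (hL : LinearIndependent ℝ L) (hE : LinearIndependent ℝ E)
    (hLA : ∀ i : Fin n, ∀ x : Fin n → ℝ, ∑ j, L i j * x j = 0 →
          ∑ j, L i j * ((A.map (Int.cast : ℤ → ℝ)).mulVec x) j = 0)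
    (hEA : ∀ i : Fin n, ∀ x : Fin n → ℝ, ∑ j, E i j * x j = 0 →
          ∑ j, E i j * ((A.map (Int.cast : ℤ → ℝ)).mulVec x) j = 0) :
    ∃ c : ℝ, ∀ x : Fin n → ℝ, ∏ i, ∑ j, L i j * x j = c * ∏ i, ∑ j, E i j * x j := by
  set B := A.map (Int.cast : ℤ → ℝ) with hB
  obtain ⟨l, hl⟩ := eig_mat B L hL hLA
  obtain ⟨m, hm⟩ := eig_mat B E hE hEA
  have hdL := Pool.Agent.H905R2.Opp.det_ne hL
  have hdE := Pool.Agent.H905R2.Opp.det_ne hE
  have hil := inj_of A hirr _ hdL l hl
  have him := inj_of A hirr _ hdE m hm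
  set G := Matrix.of L with hG
  set H := Matrix.of E with hH
  have huE : IsUnit H.det := isUnit_iff_ne_zero.2 hdE
  set P := G * H⁻¹ with hP
  have hPH : P * H = G := by
    rw [hP, Matrix.mul_assoc, Matrix.nonsing_inv_mul _ huE, Matrix.mul_one]
  have hcomm : P * Matrix.diagonal m = Matrix.diagonal l * P := by
    have e1 : P * Matrix.diagonal m * H = Matrix.diagonal l * P * H := by
      rw [Matrix.mul_assoc, ← hm, ← Matrix.mul_assoc, hPH, Matrix.mul_assoc, hPH, hl]
    have e2 : (P * Matrix.diagonal m * H) * H⁻¹ = (Matrix.diagonal l * P * H) * H⁻¹ := by rw [e1]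
    rw [Matrix.mul_assoc, Matrix.mul_nonsing_inv _ huE, Matrix.mul_one, Matrix.mul_assoc (Matrix.diagonal l * P),
      Matrix.mul_nonsing_inv _ huE, Matrix.mul_one] at e2
    exact e2
  have hentry : ∀ i j, P i j ≠ 0 → m j = l i := by
    intro i j hij
    have e1 := congrFun (congrFun hcomm i) j
    rw [Matrix.mul_diagonal, Matrix.diagonal_mul] at e1
    exact mul_left_cancel₀ hij (e1.trans (mul_comm _ _))
  have hrow : ∀ i, ∃ j, P i j ≠ 0 := by
    intro i
    by_contra hcon
    push Not at hcon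
    refine hL.ne_zero i ?_
    funext j
    have e1 := congrFun (congrFun hPH i) j
    rw [Matrix.mul_apply] at e1
    rw [Pi.zero_apply, show L i j = G i j from rfl, ← e1]
    exact Finset.sum_eq_zero fun k _ => by rw [hcon k, zero_mul]
  choose σ hσ using hrow
  have hσ0 : ∀ i j, j ≠ σ i → P i j = 0 := by
    intro i j hj
    by_contra hcon
    exact hj (him ((hentry i j hcon).trans (hentry i (σ i) (hσ i)).symm))
  have hσinj : Function.Injective σ := by
    intro i i' hii
    apply hil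
    rw [← hentry i (σ i) (hσ i), ← hentry i' (σ i') (hσ i'), hii]
  have hσbij : Function.Bijective σ := Finite.injective_iff_bijective.1 hσinj
  refine ⟨∏ i, P i (σ i), fun x => ?_⟩
  have h5 : ∀ i, ∑ j, L i j * x j = P i (σ i) * ∑ j, E (σ i) j * x j := by
    intro i
    have e1 : ∀ j, L i j = P i (σ i) * E (σ i) j := by
      intro j
      have e1 := congrFun (congrFun hPH i) j
      rw [Matrix.mul_apply, Finset.sum_eq_single (σ i)] at e1
      · exact e1.symm
      · intro k _ hk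
        rw [hσ0 i k hk, zero_mul]
      · intro h; exact absurd (Finset.mem_univ _) h
    rw [Finset.mul_sum]
    exact Finset.sum_congr rfl fun j _ => by rw [e1 j]; ring
  rw [Finset.prod_congr rfl fun i _ => h5 i, Finset.prod_mul_distrib]
  congr 1
  exact Function.Bijective.prod_comp hσbij (fun i => ∑ j, E i j * x j)

end Pool.Agent.H812R2.Opp
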